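import Mathlib
import Pool.Agent.Lib.MP_1fd81f_co.Dense

set_option autoImplicit false

open scoped Pointwise

namespace Pool.Agent.Results.MP_1fd81f_co.DenseBall

theorem result :
    ∃ ε : ℝ, 0 < ε ∧ ∀ n : ℕ, ∀ A : Finset (Fin n → ZMod 2),
      (1 / 2 - ε) * (2 : ℝ) ^ n ≤ (A.card : ℝ) →
      ∃ ℓ : ℕ, ∃ S : Fin ℓ → Finset (Fin n → ZMod 2), ∃ B : Finset (Fin n → ZMod 2),
        ℓ ≤ 2 * n ∧ (∀ i, (S i).card ≤ n + 1) ∧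
        (∀ x, x ∈ B ↔ ∃ f : Fin ℓ → (Fin n → ZMod 2), (∀ i, f i ∈ S i) ∧ ∑ i, f i = x) ∧
        2 ^ n ≤ 2 * B.card ∧ B ⊆ A + A := by
  refine ⟨1 / 2 ^ 137, by positivity, fun n A hA => ?_⟩
  obtain ⟨L, h1, h2, h3, h4⟩ := Pool.Agent.Lib.MP_1fd81f_co.DB.dense A hA
  refine ⟨L.length, L.get, _, h1, fun i => h2 _ (L.get_mem i), fun x => ?_, h3, ?_⟩
  · conv_lhs => rw [← List.ofFn_get L]
    rw [Finset.mem_sum_list_ofFn]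
    simp only [List.sum_ofFn]
    exact ⟨fun ⟨f, h⟩ => ⟨fun i => f i, fun i => (f i).2, h⟩,
      fun ⟨f, a, h⟩ => ⟨fun i => ⟨f i, a i⟩, h⟩⟩
  · convert h4

end Pool.Agent.Results.MP_1fd81f_co.DenseBall
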