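import Mathlib
import Pool.Agent.Lib.MP_1fd81f_co.Cross

set_option autoImplicit false

open scoped Pointwise

namespace Pool.Agent.Results.MP_1fd81f_co.NoCrossFamily

theorem result (α : ℝ) (hα : α < 1 / 2) :
    ∃ K : ℕ, 0 < K ∧ ∀ n : ℕ, ∀ c : ℝ, 0 < c → c ≤ 1 → (K : ℝ) ≤ c ^ K * Real.sqrt n →
      ∀ F : Finset (Finset (Fin n → ZMod 2)),
        (F.card : ℝ) ≤ Real.exp (Real.exp (c ^ K * Real.sqrt n / K)) →
        ∃ A : Finset (Fin n → ZMod 2), α * (2 : ℝ) ^ n ≤ (A.card : ℝ) ∧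
          ∀ X ∈ F, ∀ Y ∈ F, c * (2 : ℝ) ^ n ≤ (X.card : ℝ) → c * (2 : ℝ) ^ n ≤ (Y.card : ℝ) →
            ¬ (X + Y ⊆ A + A) := by
  obtain ⟨K, h0, h⟩ := Pool.Agent.Lib.MP_1fd81f_co.NX.strong α hα
  refine ⟨K, h0, fun n c a b d F hF => ?_⟩
  obtain ⟨A, h1, h2⟩ := h n c a b d F hF
  exact ⟨A, h1, fun X hX Y hY p q r => h2 X hX Y hY p q (by convert r)⟩

end Pool.Agent.Results.MP_1fd81f_co.NoCrossFamily
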